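import Pool.Agent.Helper34.EC.Defs

/-!
# Project EC, module A5: the place at infinity of a filtered algebra
-/

set_option autoImplicit false

namespace Pool.Agent.Helper83.EC

open Polynomial TensorProduct Pool.Agent.Helper16 Pool.Agent.Helper47.RR Pool.Agent.Helper34.EC

noncomputable section

variable {F A : Type} [Field F] [CommRing A] [Algebra F A] {g : ℕ}

/-- The elements of order less than `M`. -/
def W (P : Filt F A g) (M : ℕ) : Submodule F A := Submodule.span F (P.e '' {l | (l : ℕ) < M})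

/-- The order of an element. -/
def dg (P : Filt F A g) (a : A) : ℕ := (P.e.repr a).support.sup fun l => (l : ℕ)

theorem mem_V (P : Filt F A g) (M : ℕ) (a : A) : a ∈ P.V M ↔ dg P a ≤ M := by
  unfold Filt.V dg
  rw [P.e.mem_span_image, Finset.sup_le_iff]
  rfl

theorem mem_W (P : Filt F A g) (M : ℕ) (a : A) :
    a ∈ W P M ↔ ∀ l ∈ (P.e.repr a).support, (l : ℕ) < M := by
  unfold W
  rw [P.e.mem_span_image]
  rfl

theorem W_le_V (P : Filt F A g) (M : ℕ) : W P M ≤ P.V M :=
  Submodule.span_mono (Set.image_mono fun l (hl : (l : ℕ) < M) => (le_of_lt hl : (l : ℕ) ≤ M))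

theorem e_mul_mem (P : Filt F A g) (i j : P.H) {K : ℕ} (h : (i : ℕ) + j < K) :
    P.e i * P.e j ∈ W P K := by
  have h1 : P.e i * P.e j = (P.e i * P.e j - P.e ⟨i + j, P.add_mem i.2 j.2⟩) +
      P.e ⟨i + j, P.add_mem i.2 j.2⟩ := by ring
  rw [h1]
  apply Submodule.add_mem
  · exact Submodule.span_mono (Set.image_mono fun l hl => lt_trans hl h) (P.mul i j)
  · exact Submodule.subset_span ⟨_, h, rfl⟩

theorem W_mul_V (P : Filt F A g) {M N : ℕ} {a b : A} (ha : a ∈ W P M) (hb : b ∈ P.V N) :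
    a * b ∈ W P (M + N) := by
  have h1 : W P M * P.V N ≤ W P (M + N) := by
    unfold Filt.V
    conv_lhs => unfold W
    rw [Submodule.span_mul_span, Submodule.span_le]
    rintro _ ⟨_, ⟨i, hi, rfl⟩, _, ⟨j, hj, rfl⟩, rfl⟩
    exact e_mul_mem P i j (add_lt_add_of_lt_of_le hi hj)
  exact h1 (Submodule.mul_mem_mul ha hb)

theorem V_mul_V (P : Filt F A g) {M N : ℕ} {a b : A} (ha : a ∈ P.V M) (hb : b ∈ P.V N) :
    a * b ∈ P.V (M + N) := by
  have h1 : P.V M * P.V N ≤ P.V (M + N) := by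
    conv_lhs => unfold Filt.V
    rw [Submodule.span_mul_span, Submodule.span_le]
    rintro _ ⟨_, ⟨i, hi, rfl⟩, _, ⟨j, hj, rfl⟩, rfl⟩
    have h2 := e_mul_mem P i j (Nat.lt_succ_of_le (add_le_add hi hj))
    rw [SetLike.mem_coe, mem_V]
    rw [mem_W] at h2
    exact Finset.sup_le fun l hl => Nat.lt_succ_iff.1 (h2 l hl)
  exact h1 (Submodule.mul_mem_mul ha hb)

/-- The leading term. -/
theorem exists_lead (P : Filt F A g) {a : A} (ha : a ≠ 0) : ∃ (l : P.H) (α : F), (l : ℕ) = dg P a ∧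
    α ≠ 0 ∧ a - α • P.e l ∈ W P (dg P a) := by
  have hne : (P.e.repr a).support.Nonempty := by
    rw [Finsupp.support_nonempty_iff]
    intro h
    exact ha (P.e.repr.map_eq_zero_iff.1 h)
  obtain ⟨l, hl, hsup⟩ := Finset.exists_mem_eq_sup _ hne fun l : P.H => (l : ℕ)
  refine ⟨l, P.e.repr a l, hsup.symm, Finsupp.mem_support_iff.1 hl, ?_⟩
  rw [mem_W]
  intro l' hl'
  rw [Finsupp.mem_support_iff, map_sub, map_smul, P.e.repr_self, Finsupp.sub_apply,
    Finsupp.smul_apply, smul_eq_mul] at hl'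
  have hne' : l' ≠ l := by
    rintro rfl
    apply hl'
    rw [Finsupp.single_eq_same, mul_one, sub_self]
  rw [Finsupp.single_eq_of_ne hne', mul_zero, sub_zero] at hl'
  have h1 : (l' : ℕ) ≤ dg P a :=
    Finset.le_sup (f := fun l : P.H => (l : ℕ)) (Finsupp.mem_support_iff.2 hl')
  refine lt_of_le_of_ne h1 fun h2 => hne' (Subtype.ext ?_)
  rw [h2]
  exact hsup

theorem le_dg (P : Filt F A g) {a : A} {l : P.H} (h : P.e.repr a l ≠ 0) : (l : ℕ) ≤ dg P a :=
  Finset.le_sup (f := fun l : P.H => (l : ℕ)) (Finsupp.mem_support_iff.2 h)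

theorem e_mem_V (P : Filt F A g) (l : P.H) : P.e l ∈ P.V l :=
  Submodule.subset_span ⟨l, le_refl (l : ℕ), rfl⟩

theorem dg_mul (P : Filt F A g) {a b : A} (ha : a ≠ 0) (hb : b ≠ 0) :
    a * b ≠ 0 ∧ dg P (a * b) = dg P a + dg P b := by
  obtain ⟨l, α, hl, hα, h1⟩ := exists_lead P ha
  obtain ⟨m, β, hm, hβ, h2⟩ := exists_lead P hb
  have hlm : (l : ℕ) + m ∈ P.H := P.add_mem l.2 m.2
  have ha' : a ∈ P.V (dg P a) := (mem_V P _ _).2 le_rfl
  have hb' : b ∈ P.V (dg P b) := (mem_V P _ _).2 le_rfl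
  have h3 : a * b - (α * β) • P.e ⟨l + m, hlm⟩ ∈ W P (dg P a + dg P b) := by
    have h4 : a * b - (α * β) • P.e ⟨l + m, hlm⟩ = (a - α • P.e l) * b +
        ((b - β • P.e m) * (α • P.e l) + (α * β) • (P.e l * P.e m - P.e ⟨l + m, hlm⟩)) := by
      simp only [smul_sub, sub_mul, smul_mul_assoc, mul_smul_comm, mul_smul, mul_comm (P.e m)]
      rw [mul_comm b (P.e l)]
      simp only [smul_smul]
      rw [mul_comm α β]
      abel
    rw [h4]
    apply Submodule.add_mem
    · exact W_mul_V P h1 hb'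
    apply Submodule.add_mem
    · rw [add_comm (dg P a)]
      apply W_mul_V P h2
      apply Submodule.smul_mem
      rw [← hl]
      exact e_mem_V P l
    · apply Submodule.smul_mem
      have h5 := P.mul l m
      unfold W
      rw [← hl, ← hm]
      exact h5
  have h4 : P.e.repr (a * b) ⟨l + m, hlm⟩ = α * β := by
    by_contra hne
    have h5 : P.e.repr (a * b - (α * β) • P.e ⟨l + m, hlm⟩) ⟨l + m, hlm⟩ ≠ 0 := by
      rw [map_sub, map_smul, P.e.repr_self, Finsupp.sub_apply, Finsupp.smul_apply,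
        Finsupp.single_eq_same, smul_eq_mul, mul_one]
      exact sub_ne_zero.2 hne
    have h6 := (mem_W P _ _).1 h3 _ (Finsupp.mem_support_iff.2 h5)
    simp only at h6
    omega
  have h5 : P.e.repr (a * b) ⟨l + m, hlm⟩ ≠ 0 := by
    rw [h4]
    exact mul_ne_zero hα hβ
  constructor
  · intro h0
    apply h5
    rw [h0, map_zero]
    rfl
  · apply le_antisymm
    · exact (mem_V P _ _).1 (V_mul_V P ha' hb')
    · have h6 := le_dg P h5
      simp only at h6
      omega

theorem dg_one (P : Filt F A g) : dg P 1 = 0 := by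
  have h1 : P.e ⟨0, P.zero_mem⟩ ∈ P.V 0 := e_mem_V P ⟨0, P.zero_mem⟩
  rw [P.one] at h1
  exact Nat.le_zero.1 ((mem_V P 0 1).1 h1)

theorem one_ne (P : Filt F A g) : (1 : A) ≠ 0 := by
  rw [← P.one]
  exact P.e.ne_zero _

open Classical in
/-- The valuation of the filtration. -/
def vl (P : Filt F A g) : Valuation A (WithZero (Multiplicative ℤ)) where
  toFun a := if a = 0 then 0 else WithZero.exp ((dg P a : ℕ) : ℤ)
  map_zero' := by rw [if_pos rfl]
  map_one' := by
    rw [if_neg (one_ne P), dg_one]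
    simp
  map_mul' a b := by
    by_cases ha : a = 0
    · simp [ha]
    by_cases hb : b = 0
    · simp [hb]
    obtain ⟨h1, h2⟩ := dg_mul P ha hb
    rw [if_neg ha, if_neg hb, if_neg h1, h2, Nat.cast_add, WithZero.exp_add]
  map_add_le_max' a b := by
    by_cases hab : a + b = 0
    · rw [if_pos hab]; exact zero_le
    by_cases ha : a = 0
    · simp [ha]
    by_cases hb : b = 0
    · simp [hb]
    rw [if_neg ha, if_neg hb, if_neg hab]
    have h1 : a + b ∈ P.V (max (dg P a) (dg P b)) :=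
      Submodule.add_mem _ ((mem_V P _ _).2 (le_max_left _ _)) ((mem_V P _ _).2 (le_max_right _ _))
    have h2 := (mem_V P _ _).1 h1
    rcases le_total (dg P a) (dg P b) with h | h
    · rw [max_eq_right h] at h2
      exact le_max_of_le_right (WithZero.exp_le_exp.2 (by exact_mod_cast h2))
    · rw [max_eq_left h] at h2
      exact le_max_of_le_left (WithZero.exp_le_exp.2 (by exact_mod_cast h2))

theorem vl_apply (P : Filt F A g) {a : A} (ha : a ≠ 0) :
    vl P a = WithZero.exp ((dg P a : ℕ) : ℤ) := if_neg ha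

theorem vl_le (P : Filt F A g) (M : ℕ) (a : A) : vl P a ≤ WithZero.exp (M : ℤ) ↔ a ∈ P.V M := by
  by_cases ha : a = 0
  · rw [ha, map_zero]
    exact ⟨fun _ => Submodule.zero_mem _, fun _ => zero_le⟩
  · rw [vl_apply P ha, WithZero.exp_le_exp, mem_V]
    exact Nat.cast_le

theorem dg_e (P : Filt F A g) (l : P.H) : dg P (P.e l) = l := by
  apply le_antisymm
  · exact (mem_V P _ _).1 (e_mem_V P l)
  · apply le_dg
    rw [P.e.repr_self, Finsupp.single_eq_same]
    exact one_ne_zero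

theorem exists_large (P : Filt F A g) : ∃ N : ℕ, ∀ n, N ≤ n → n ∈ P.H := by
  have hfin : (P.Hᶜ).Finite := by
    rw [← Set.encard_lt_top_iff, P.gaps]
    exact WithTop.coe_lt_top g
  obtain ⟨N, hN⟩ := hfin.bddAbove
  refine ⟨N + 1, fun n hn => ?_⟩
  by_contra h
  have := hN h
  omega

variable {L : Type} [IsDomain A] [Field L] [Algebra A L] [IsFractionRing A L] [Algebra F L]
  [IsScalarTower F A L]

/-- EC-A5 -/
theorem exists_place (P : Filt F A g) : ∃ v : Place F L, ∀ (M : ℕ) (a : A),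
    v.val (algebraMap A L a) ≤ WithZero.exp (M : ℤ) ↔ a ∈ P.V M := by
  have hS : nonZeroDivisors A ≤ (vl P).supp.primeCompl := by
    intro a ha h
    have h1 : a ≠ 0 := nonZeroDivisors.ne_zero ha
    replace h : a ∈ (vl P).supp := h
    rw [Valuation.mem_supp_iff] at h
    rw [vl_apply P h1] at h
    exact WithZero.exp_ne_zero h
  set w := (vl P).extendToLocalization hS L with hw
  have hwa : ∀ a : A, w (algebraMap A L a) = vl P a := fun a =>
    Valuation.extendToLocalization_apply_map_apply _ _ _ _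
  have he : ∀ l : P.H, w (algebraMap A L (P.e l)) = WithZero.exp ((l : ℕ) : ℤ) := by
    intro l
    rw [hwa, vl_apply P (P.e.ne_zero l), dg_e]
  refine ⟨⟨w, ?_, ?_⟩, ?_⟩
  · intro y
    by_cases hy : y = 0
    · exact ⟨0, by rw [map_zero, hy]⟩
    obtain ⟨N, hN⟩ := exists_large P
    obtain ⟨z, rfl⟩ : ∃ z : ℤ, y = WithZero.exp z := ⟨WithZero.log y, (WithZero.exp_log hy).symm⟩
    have h1 : N + z.natAbs ∈ P.H := hN _ (by omega)
    have h2 : (((N + z.natAbs : ℕ) : ℤ) + z).toNat ∈ P.H := hN _ (by omega)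
    refine ⟨algebraMap A L (P.e ⟨_, h2⟩) / algebraMap A L (P.e ⟨_, h1⟩), ?_⟩
    rw [map_div₀, he, he, ← WithZero.exp_sub]
    congr 1
    simp only
    omega
  · intro a ha
    rw [IsScalarTower.algebraMap_apply F A L, hwa]
    have h1 : algebraMap F A a = a • P.e ⟨0, P.zero_mem⟩ := by
      rw [P.one, Algebra.algebraMap_eq_smul_one]
    have h2 : algebraMap F A a ≠ 0 := by
      rw [h1]
      exact smul_ne_zero ha (P.e.ne_zero _)
    have h3 : algebraMap F A a ∈ P.V 0 := by
      rw [h1]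
      exact Submodule.smul_mem _ _ (e_mem_V P ⟨0, P.zero_mem⟩)
    have h4 : dg P (algebraMap F A a) = 0 := Nat.le_zero.1 ((mem_V P _ _).1 h3)
    rw [vl_apply P h2, h4]
    simp
  · intro M a
    show w (algebraMap A L a) ≤ _ ↔ _
    rw [hwa, vl_le]

end

end Pool.Agent.Helper83.EC
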